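import Mathlib
import Pool.Agent.NPC.Sat
import Pool.Agent.H586R2.EA.PolyRed

set_option autoImplicit false

/-!
# Weighted min-EDGE-ADD is NP-hard

Already the feasibility question is NP-hard: given a weighted graph and weights on its non-edges,
all weights being in `{1, 2, 4}`, can non-edges be added so that the weighted graph becomes stable?
-/

namespace Pool.Agent.Results.MP_6f953e_lc.WeightedEdgeAddNPHard

open Pool.Agent.NPC Pool.Agent.H586R2.EA

/-- Weighted min-EDGE-ADD is NP-hard. Let `W` be any set of rational numbers that contains `1`, `2`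
and `4` (for instance all rational numbers). For instances whose weights `w` and `w'` are
nonnegative and belong to `W`, it is NP-hard to decide whether some set `F` makes the weighted graph
stable, and it is NP-hard to decide whether some such `F` has at most `k` elements. -/
theorem result (W : Set ℚ) (hW : ({1, 2, 4} : Set ℚ) ⊆ W) :
    NPHardP (fun I : Inst => I.Valid ∧ I.WeightsIn W ∧ I.Stabilizable) ∧
    NPHardP (fun p : Inst × ℕ => p.1.Valid ∧ p.1.WeightsIn W ∧ p.1.StabilizableBy p.2) := by
  have h1 : ∀ φ : Cnf, SAT φ ↔ (red φ).Stabilizable := fun φ => red_correct φ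
  have h2 : ∀ φ : Cnf, SAT φ ↔ (red φ).StabilizableBy ((red φ).length * (red φ).length) :=
    fun φ => (h1 φ).trans (stabilizableBy_iff _)
  have h3 : ∀ φ : Cnf, (red φ).WeightsIn W := fun φ u hu v hv => hW (red_weights φ u hu v hv)
  exact ⟨(hardI_SAT.trans red_poly
      (fun φ => (h1 φ).trans ⟨fun h => ⟨red_valid φ, h3 φ, h⟩, fun h => h.2.2⟩)).toNPHardP,
    (hardI_SAT.trans redk_poly
      (fun φ => (h2 φ).trans ⟨fun h => ⟨red_valid φ, h3 φ, h⟩, fun h => h.2.2⟩)).toNPHardP⟩

end Pool.Agent.Results.MP_6f953e_lc.WeightedEdgeAddNPHard
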